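import Pool.Agent.Helper17.SO.Stmts

/-! Half of the primes. -/

set_option autoImplicit false

open Finset

namespace Pool.Agent.Helper17.SO

theorem denb_ind (J : ℤ) (h : J = 0 ∨ J = 1 ∨ J = -1) :
    (if J = -1 then (1 : ℝ) else 0) = (1 - (J : ℝ)) / 2 - (if J = 0 then (1 : ℝ) else 0) / 2 := by
  rcases h with rfl | rfl | rfl <;> norm_num

theorem st_DENB (h1 : ST_MER) (h2 : ST_LEG) : ST_DENB := by
  classical
  intro a ha
  obtain ⟨C1, hC1, hM⟩ := h1
  obtain ⟨C2, hC2, hL⟩ := h2 a ha
  have ha0 : a ≠ 0 := by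
    rintro rfl
    exact ha ⟨0, by norm_num⟩
  refine ⟨C1 / 2 + C2 / 2 + (a.natAbs.divisors.card : ℝ), by positivity, fun u w hu hw => ?_⟩
  have e1 : ∑ p ∈ (PP u w).filter (fun p => jacobiSym a p = -1), 1 / (p : ℝ) =
      ∑ p ∈ PP u w, ((1 / (p : ℝ)) / 2 - ((jacobiSym a p : ℝ) / p) / 2 -
        ((if jacobiSym a p = 0 then (1 : ℝ) else 0) / p) / 2) := by
    rw [Finset.sum_filter]
    refine Finset.sum_congr rfl fun p _ => ?_
    have h := denb_ind (jacobiSym a p) (jacobiSym.trichotomy a p)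
    have e : (if jacobiSym a p = -1 then 1 / (p : ℝ) else 0) =
        (if jacobiSym a p = -1 then (1 : ℝ) else 0) / p := by
      split_ifs <;> simp
    rw [e, h]
    ring
  rw [e1, Finset.sum_sub_distrib, Finset.sum_sub_distrib, ← Finset.sum_div, ← Finset.sum_div,
    ← Finset.sum_div]
  have h3 := (abs_le.1 (hM u w hu hw)).1
  have h4 := (abs_le.1 (hL u w hu hw)).2
  have h5 : ∑ p ∈ PP u w, (if jacobiSym a p = 0 then (1 : ℝ) else 0) / p ≤
      (a.natAbs.divisors.card : ℝ) := by
    have e2 : ∑ p ∈ PP u w, (if jacobiSym a p = 0 then (1 : ℝ) else 0) / p ≤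
        ∑ p ∈ (PP u w).filter (fun p => jacobiSym a p = 0), (1 : ℝ) := by
      rw [Finset.sum_filter]
      refine Finset.sum_le_sum fun p hp => ?_
      have hpp : p.Prime := (Finset.mem_filter.1 hp).2
      split_ifs
      · rw [div_le_one (by exact_mod_cast hpp.pos)]
        exact_mod_cast hpp.one_lt.le
      · simp
    refine e2.trans ?_
    rw [Finset.sum_const, nsmul_eq_mul, mul_one]
    have hsub : (PP u w).filter (fun p => jacobiSym a p = 0) ⊆ a.natAbs.divisors := by
      intro p hp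
      obtain ⟨hp1, hp2⟩ := Finset.mem_filter.1 hp
      have hpp : p.Prime := (Finset.mem_filter.1 hp1).2
      rw [jacobiSym.eq_zero_iff] at hp2
      rw [Nat.mem_divisors]
      refine ⟨?_, Int.natAbs_ne_zero.2 ha0⟩
      have h6 : a.gcd p ≠ 1 := hp2.2
      rcases (Nat.coprime_or_dvd_of_prime hpp a.natAbs) with h7 | h7
      · exfalso
        apply h6
        rw [Int.gcd_comm, Int.gcd, Int.natAbs_natCast]
        exact h7
      · exact h7
    exact_mod_cast Finset.card_le_card hsub
  linarith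

end Pool.Agent.Helper17.SO
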